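import Mathlib
import Pool.Agent.R627.Ladder

/-!
# A subgyrogroup without a suitable set of a strongly topologically orderable gyrogroup
-/

set_option autoImplicit false
set_option linter.style.haveILetI false
set_option linter.unusedSectionVars false

namespace Pool.Agent.Results.MP_1c9ee6_al.NoSuitable

open Topology Filter Set Pool.Agent.R627.Ladder

/-! ## Definitions -/

/-- A gyrogroup. -/
structure Gyrogroup (G : Type*) where
  op : G → G → G
  one : G
  inv : G → G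
  gyr : G → G → G → G
  one_op : ∀ a, op one a = a
  inv_op : ∀ a, op (inv a) a = one
  gyr_bijective : ∀ a b, Function.Bijective (gyr a b)
  gyr_op : ∀ a b x y, gyr a b (op x y) = op (gyr a b x) (gyr a b y)
  left_gyroassoc : ∀ a b c, op a (op b c) = op (op a b) (gyr a b c)
  loop : ∀ a b, gyr a b = gyr (op a b) b

section defs

variable {G : Type*} (𝒢 : Gyrogroup G)

/-- A subgyrogroup. -/
def IsSubgyrogroup (H : Set G) : Prop :=
  H.Nonempty ∧ (∀ a ∈ H, 𝒢.inv a ∈ H) ∧ ∀ a ∈ H, ∀ b ∈ H, 𝒢.op a b ∈ H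

/-- The subgyrogroup generated by a set: the intersection of all subgyrogroups containing it. -/
def generated (S : Set G) : Set G := ⋂₀ {H | IsSubgyrogroup 𝒢 H ∧ S ⊆ H}

variable [TopologicalSpace G]

/-- The topology makes the gyrogroup a topological gyrogroup. -/
def IsTopologicalGyrogroup : Prop :=
  (Continuous fun q : G × G => 𝒢.op q.1 q.2) ∧ Continuous 𝒢.inv

/-- The gyrogroup is strongly topological. -/
def IsStronglyTopological : Prop :=
  IsTopologicalGyrogroup 𝒢 ∧ ∃ 𝒰 : Set (Set G),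
    (∀ U ∈ 𝒰, U ∈ 𝓝 𝒢.one) ∧ (∀ V ∈ 𝓝 𝒢.one, ∃ U ∈ 𝒰, U ⊆ V) ∧
      ∀ U ∈ 𝒰, ∀ x y, 𝒢.gyr x y '' U = U

/-- The topology is the order topology of some total order. -/
def IsTopologicallyOrderable (G : Type*) [t : TopologicalSpace G] : Prop :=
  ∃ l : LinearOrder G, @OrderTopology G t l.toPartialOrder.toPreorder

/-- `S` is a suitable set for the subgyrogroup `K` (with the subspace topology): `S` is a discrete
subset of `K`, the set `S ∪ {1}` is closed in `K` and the subgyrogroup generated by `S` is dense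
in `K`. -/
def IsSuitable (K S : Set G) : Prop :=
  S ⊆ K ∧ DiscreteTopology S ∧ (∃ C, IsClosed C ∧ C ∩ K = S ∪ {𝒢.one}) ∧
    K ⊆ closure (generated 𝒢 S)

end defs

/-! ## The group -/

variable {W : Type} [LinearOrder W]

/-- The underlying set of the group. -/
@[ext]
structure G (W : Type) where
  d : (W → ℤ) →₀ ℤ
  x : W → ℤ

noncomputable instance : Add (G W) := ⟨fun a b => ⟨a.d + b.d, a.x + b.x⟩⟩

instance : Zero (G W) := ⟨⟨0, 0⟩⟩

noncomputable instance : Neg (G W) := ⟨fun a => ⟨-a.d, -a.x⟩⟩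

noncomputable instance : AddCommGroup (G W) where
  nsmul := nsmulRec
  zsmul := zsmulRec
  add_assoc a b c := G.ext (add_assoc _ _ _) (add_assoc _ _ _)
  zero_add a := G.ext (zero_add _) (zero_add _)
  add_zero a := G.ext (add_zero _) (add_zero _)
  neg_add_cancel a := G.ext (neg_add_cancel _) (neg_add_cancel _)
  add_comm a b := G.ext (add_comm _ _) (add_comm _ _)

theorem add_d (a b : G W) : (a + b).d = a.d + b.d := rfl
theorem add_x (a b : G W) : (a + b).x = a.x + b.x := rfl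
theorem neg_d (a : G W) : (-a).d = -a.d := rfl
theorem neg_x (a : G W) : (-a).x = -a.x := rfl
theorem zero_d : (0 : G W).d = 0 := rfl
theorem zero_x : (0 : G W).x = 0 := rfl

/-- The basic neighbourhoods. -/
def N (g : G W) (α : W) : Set (G W) := {g' | g'.d = g.d ∧ ∀ γ < α, g'.x γ = g.x γ}

theorem mem_N {g g' : G W} {α : W} : g' ∈ N g α ↔ g'.d = g.d ∧ ∀ γ < α, g'.x γ = g.x γ := Iff.rfl

theorem self_mem_N (g : G W) (α : W) : g ∈ N g α := ⟨rfl, fun _ _ => rfl⟩

theorem N_mono (g : G W) {α β : W} (h : α ≤ β) : N g β ⊆ N g α :=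
  fun _ hg => ⟨hg.1, fun γ hγ => hg.2 γ (lt_of_lt_of_le hγ h)⟩

theorem N_trans {g g' : G W} {α : W} (h : g' ∈ N g α) : N g' α ⊆ N g α :=
  fun _ hg => ⟨hg.1.trans h.1, fun γ hγ => (hg.2 γ hγ).trans (h.2 γ hγ)⟩

variable [hne : Nonempty W]

instance : TopologicalSpace (G W) where
  IsOpen U := ∀ g ∈ U, ∃ α, N g α ⊆ U
  isOpen_univ := fun _ _ => ⟨hne.some, subset_univ _⟩
  isOpen_inter := by
    intro U V hU hV g hg
    obtain ⟨α, hα⟩ := hU g hg.1
    obtain ⟨β, hβ⟩ := hV g hg.2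
    exact ⟨max α β, fun x hx => ⟨hα (N_mono g (le_max_left _ _) hx),
      hβ (N_mono g (le_max_right _ _) hx)⟩⟩
  isOpen_sUnion := by
    intro s hs g hg
    obtain ⟨U, hU, hgU⟩ := hg
    obtain ⟨α, hα⟩ := hs U hU g hgU
    exact ⟨α, hα.trans (subset_sUnion_of_mem hU)⟩

theorem isOpen_iff {U : Set (G W)} : IsOpen U ↔ ∀ g ∈ U, ∃ α, N g α ⊆ U := Iff.rfl

theorem isOpen_N (g : G W) (α : W) : IsOpen (N g α) := fun _ hg => ⟨α, N_trans hg⟩

theorem mem_nhds {g : G W} {s : Set (G W)} : s ∈ 𝓝 g ↔ ∃ α, N g α ⊆ s := by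
  rw [mem_nhds_iff]
  constructor
  · rintro ⟨U, hUs, hU, hg⟩
    obtain ⟨α, hα⟩ := hU g hg
    exact ⟨α, hα.trans hUs⟩
  · rintro ⟨α, hα⟩
    exact ⟨N g α, hα, isOpen_N g α, self_mem_N g α⟩

instance : IsTopologicalAddGroup (G W) where
  continuous_add := by
    rw [continuous_iff_continuousAt]
    rintro ⟨g, h⟩ s hs
    obtain ⟨α, hα⟩ := mem_nhds.mp hs
    rw [Filter.mem_map]
    have h1 : N g α ×ˢ N h α ∈ 𝓝 (g, h) :=
      prod_mem_nhds (mem_nhds.mpr ⟨α, Subset.rfl⟩) (mem_nhds.mpr ⟨α, Subset.rfl⟩)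
    filter_upwards [h1] with q hq
    apply hα
    refine ⟨?_, fun γ hγ => ?_⟩
    · show q.1.d + q.2.d = g.d + h.d
      rw [hq.1.1, hq.2.1]
    · show q.1.x γ + q.2.x γ = g.x γ + h.x γ
      rw [hq.1.2 γ hγ, hq.2.2 γ hγ]
  continuous_neg := by
    rw [continuous_iff_continuousAt]
    intro g s hs
    obtain ⟨α, hα⟩ := mem_nhds.mp hs
    rw [Filter.mem_map]
    have h1 : N g α ∈ 𝓝 g := mem_nhds.mpr ⟨α, Subset.rfl⟩
    filter_upwards [h1] with q hq
    apply hα
    refine ⟨?_, fun γ hγ => ?_⟩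
    · show -q.d = -g.d
      rw [hq.1]
    · show -q.x γ = -g.x γ
      rw [hq.2 γ hγ]

/-- The group as a gyrogroup. -/
noncomputable def gg (W : Type) : Gyrogroup (G W) where
  op := (· + ·)
  one := 0
  inv := fun a => -a
  gyr := fun _ _ c => c
  one_op := zero_add
  inv_op := neg_add_cancel
  gyr_bijective _ _ := Function.bijective_id
  gyr_op _ _ _ _ := rfl
  left_gyroassoc a b c := (add_assoc a b c).symm
  loop _ _ := rfl

theorem isStrong : IsStronglyTopological (gg W) := by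
  refine ⟨⟨continuous_add, continuous_neg⟩, {U | U ∈ 𝓝 0}, fun _ hU => hU,
    fun V hV => ⟨V, hV, Subset.rfl⟩, fun U _ x y => image_id U⟩

theorem isSub_iff {K : Set (G W)} : IsSubgyrogroup (gg W) K ↔
    ∃ H : AddSubgroup (G W), (H : Set (G W)) = K := by
  constructor
  · rintro ⟨⟨a, ha⟩, h1, h2⟩
    have h3 : (gg W).op ((gg W).inv a) a ∈ K := h2 _ (h1 a ha) _ ha
    rw [(gg W).inv_op] at h3
    let H : AddSubgroup (G W) :=
      { carrier := K
        zero_mem' := h3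
        add_mem' := by
          intro x y hx hy
          exact h2 x hx y hy
        neg_mem' := by
          intro x hx
          exact h1 x hx }
    exact ⟨H, rfl⟩
  · rintro ⟨H, rfl⟩
    exact ⟨⟨0, H.zero_mem⟩, fun a ha => H.neg_mem ha, fun a ha b hb => H.add_mem ha hb⟩

theorem generated_eq (S : Set (G W)) : generated (gg W) S = AddSubgroup.closure S := by
  apply Subset.antisymm
  · intro x hx
    exact hx _ ⟨isSub_iff.mpr ⟨AddSubgroup.closure S, rfl⟩, AddSubgroup.subset_closure⟩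
  · rintro x hx K ⟨hK, hSK⟩
    obtain ⟨H, rfl⟩ := isSub_iff.mp hK
    exact (AddSubgroup.closure_le H).mpr hSK hx

/-! ## The order -/

theorem orderable_aux (h : IsOmegaOne W) {D : Type} [LinearOrder D] (e : ((W → ℤ) →₀ ℤ) → D)
    (he : Function.Injective e) : IsTopologicallyOrderable (G W) := by
  classical
  haveI := h.wf
  let f : G W → Lex (D × Lex (W → ℤ)) := fun g => toLex (e g.d, toLex g.x)
  have hf : Function.Injective f := by
    intro g g' hgg
    have h1 : (e g.d, toLex g.x) = (e g'.d, toLex g'.x) := toLex.injective hgg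
    exact G.ext (he (congrArg Prod.fst h1)) (toLex.injective (congrArg Prod.snd h1))
  let l : LinearOrder (G W) := LinearOrder.lift' f hf
  have hlt : ∀ g g' : G W, l.lt g g' ↔ e g.d < e g'.d ∨
      (e g.d = e g'.d ∧ ∃ γ, (∀ γ' < γ, g.x γ' = g'.x γ') ∧ g.x γ < g'.x γ) := by
    intro g g'
    have h1 : (toLex (e g.d, toLex g.x) : Lex (D × Lex (W → ℤ))) <
        toLex (e g'.d, toLex g'.x) ↔ e g.d < e g'.d ∨
          (e g.d = e g'.d ∧ toLex g.x < toLex g'.x) :=
      Prod.Lex.toLex_lt_toLex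
    have h2 : toLex g.x < toLex g'.x ↔
        ∃ γ, (∀ γ' < γ, g.x γ' = g'.x γ') ∧ g.x γ < g'.x γ := Iff.rfl
    rw [h2] at h1
    exact h1
  obtain ⟨b, -⟩ := h.bdd (Set.countable_empty (α := W))
  refine ⟨l, ⟨le_antisymm ?_ ?_⟩⟩
  · refine le_generateFrom ?_
    rintro s ⟨a, rfl | rfl⟩
    · intro g hg
      rcases (hlt a g).mp hg with h1 | ⟨h1, γ, h2, h3⟩
      · exact ⟨b, fun g' hg' => (hlt a g').mpr (Or.inl (by rw [hg'.1]; exact h1))⟩
      · obtain ⟨α, hα⟩ := h.bdd (Set.countable_singleton γ)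
        have hα' := hα γ rfl
        refine ⟨α, fun g' hg' => (hlt a g').mpr (Or.inr ⟨by rw [hg'.1]; exact h1, γ, ?_, ?_⟩)⟩
        · intro γ' hγ'
          rw [h2 γ' hγ', hg'.2 γ' (lt_trans hγ' hα')]
        · rw [hg'.2 γ hα']
          exact h3
    · intro g hg
      rcases (hlt g a).mp hg with h1 | ⟨h1, γ, h2, h3⟩
      · exact ⟨b, fun g' hg' => (hlt g' a).mpr (Or.inl (by rw [hg'.1]; exact h1))⟩
      · obtain ⟨α, hα⟩ := h.bdd (Set.countable_singleton γ)
        have hα' := hα γ rfl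
        refine ⟨α, fun g' hg' => (hlt g' a).mpr (Or.inr ⟨by rw [hg'.1]; exact h1, γ, ?_, ?_⟩)⟩
        · intro γ' hγ'
          rw [hg'.2 γ' (lt_trans hγ' hα'), h2 γ' hγ']
        · rw [hg'.2 γ hα']
          exact h3
  · intro U hU
    letI t' : TopologicalSpace (G W) := @Preorder.topology (G W) l.toPartialOrder.toPreorder
    letI := l
    haveI : OrderTopology (G W) := ⟨rfl⟩
    refine (@isOpen_iff_mem_nhds (G W) t' U).mpr ?_
    intro g hg
    obtain ⟨α, hα⟩ := hU g hg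
    let a : G W := ⟨g.d, g.x - Pi.single α 1⟩
    let c : G W := ⟨g.d, g.x + Pi.single α 1⟩
    have hax : ∀ γ < α, a.x γ = g.x γ := by
      intro γ hγ
      show g.x γ - Pi.single (M := fun _ => ℤ) α 1 γ = g.x γ
      rw [Pi.single_eq_of_ne hγ.ne, sub_zero]
    have hcx : ∀ γ < α, c.x γ = g.x γ := by
      intro γ hγ
      show g.x γ + Pi.single (M := fun _ => ℤ) α 1 γ = g.x γ
      rw [Pi.single_eq_of_ne hγ.ne, add_zero]
    have hag : a < g := (hlt a g).mpr (Or.inr ⟨rfl, α, hax, by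
      show g.x α - Pi.single (M := fun _ => ℤ) α 1 α < g.x α
      rw [Pi.single_eq_same]; omega⟩)
    have hgc : g < c := (hlt g c).mpr (Or.inr ⟨rfl, α, fun γ hγ => (hcx γ hγ).symm, by
      show g.x α < g.x α + Pi.single (M := fun _ => ℤ) α 1 α
      rw [Pi.single_eq_same]; omega⟩)
    refine Filter.mem_of_superset (Ioo_mem_nhds hag hgc) ?_
    rintro g' ⟨h1, h2⟩
    apply hα
    have h1' := (hlt a g').mp h1
    have h2' := (hlt g' c).mp h2
    have hde : e g'.d = e g.d := by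
      rcases h1' with h1' | h1'
      · rcases h2' with h2' | h2'
        · exact absurd (lt_trans h1' h2') (lt_irrefl _)
        · exact h2'.1
      · exact h1'.1.symm
    have hd : g'.d = g.d := he hde
    have hx1 : ∃ γ, (∀ γ' < γ, a.x γ' = g'.x γ') ∧ a.x γ < g'.x γ := by
      rcases h1' with h1' | h1'
      · exact absurd hde (ne_of_gt h1')
      · exact h1'.2
    have hx2 : ∃ γ, (∀ γ' < γ, g'.x γ' = c.x γ') ∧ g'.x γ < c.x γ := by
      rcases h2' with h2' | h2'
      · exact absurd hde (ne_of_lt h2')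
      · exact h2'.2
    obtain ⟨γ₁, h3, h4⟩ := hx1
    obtain ⟨γ₂, h5, h6⟩ := hx2
    have hγ₁ : α ≤ γ₁ := by
      by_contra hcon
      have hγ : γ₁ < α := not_le.mp hcon
      rcases lt_trichotomy γ₁ γ₂ with h7 | h7 | h7
      · have := h5 γ₁ h7
        rw [hax γ₁ hγ] at h4
        rw [hcx γ₁ hγ] at this
        omega
      · subst h7
        rw [hax γ₁ hγ] at h4
        rw [hcx γ₁ hγ] at h6
        omega
      · have := h3 γ₂ h7
        rw [hax γ₂ (lt_trans h7 hγ)] at this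
        rw [hcx γ₂ (lt_trans h7 hγ)] at h6
        omega
    exact ⟨hd, fun γ hγ => by rw [← h3 γ (lt_of_lt_of_le hγ hγ₁), hax γ hγ]⟩

theorem orderable (h : IsOmegaOne W) : IsTopologicallyOrderable (G W) := by
  obtain ⟨lD, -⟩ := exists_wellFoundedLT ((W → ℤ) →₀ ℤ)
  exact @orderable_aux W _ _ h ((W → ℤ) →₀ ℤ) lD id Function.injective_id

/-! ## The suitable set of the group -/

/-- The suitable set. -/
noncomputable def SS (W : Type) : Set (G W) :=
  (range fun x : W → ℤ => (⟨Finsupp.single x 1, x⟩ : G W)) ∪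
    range fun x : W → ℤ => (⟨Finsupp.single x 1, 0⟩ : G W)

theorem closure_SS : AddSubgroup.closure (SS W) = ⊤ := by
  rw [eq_top_iff]
  intro g _
  have h1 : ∀ x : W → ℤ, (⟨Finsupp.single x 1, 0⟩ : G W) ∈ AddSubgroup.closure (SS W) :=
    fun x => AddSubgroup.subset_closure (Or.inr ⟨x, rfl⟩)
  have h2 : ∀ x : W → ℤ, (⟨0, x⟩ : G W) ∈ AddSubgroup.closure (SS W) := by
    intro x
    have h3 : (⟨Finsupp.single x 1, x⟩ : G W) ∈ AddSubgroup.closure (SS W) :=
      AddSubgroup.subset_closure (Or.inl ⟨x, rfl⟩)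
    have h4 := (AddSubgroup.closure (SS W)).sub_mem h3 (h1 x)
    have h5 : (⟨Finsupp.single x 1, x⟩ : G W) - ⟨Finsupp.single x 1, 0⟩ = ⟨0, x⟩ := by
      rw [sub_eq_add_neg]
      refine G.ext ?_ ?_
      · show Finsupp.single x 1 + -Finsupp.single x 1 = 0
        rw [add_neg_cancel]
      · show x + -0 = x
        rw [neg_zero, add_zero]
    rwa [h5] at h4
  let j : ((W → ℤ) →₀ ℤ) →+ G W := AddMonoidHom.mk' (fun d => ⟨d, 0⟩) (fun d d' =>
    G.ext rfl (add_zero 0).symm)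
  have h6 : ∀ d : (W → ℤ) →₀ ℤ, j d ∈ AddSubgroup.closure (SS W) := by
    intro d
    induction d using Finsupp.induction_linear with
    | zero => rw [map_zero]; exact zero_mem _
    | add f g hf hg => rw [map_add]; exact add_mem hf hg
    | single x n =>
      have h7 : Finsupp.single x n = n • Finsupp.single x (1 : ℤ) := by
        rw [Finsupp.smul_single, smul_eq_mul, mul_one]
      rw [h7, map_zsmul]
      exact zsmul_mem (h1 x) n
  have h8 : g = j g.d + ⟨0, g.x⟩ := G.ext (add_zero _).symm (zero_add _).symm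
  rw [h8]
  exact add_mem (h6 g.d) (h2 g.x)

theorem t2 (h : IsOmegaOne W) : T2Space (G W) := by
  refine ⟨fun g g' hne' => ?_⟩
  by_cases hd : g.d = g'.d
  · obtain ⟨γ, hγ⟩ : ∃ γ, g.x γ ≠ g'.x γ := by
      by_contra hcon
      push Not at hcon
      exact hne' (G.ext hd (funext hcon))
    obtain ⟨α, hα⟩ := h.bdd (Set.countable_singleton γ)
    have hα' := hα γ rfl
    refine ⟨N g α, N g' α, isOpen_N _ _, isOpen_N _ _, self_mem_N _ _, self_mem_N _ _, ?_⟩
    rw [Set.disjoint_left]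
    intro z h1 h2
    exact hγ ((h1.2 γ hα').symm.trans (h2.2 γ hα'))
  · refine ⟨N g hne.some, N g' hne.some, isOpen_N _ _, isOpen_N _ _, self_mem_N _ _,
      self_mem_N _ _, ?_⟩
    rw [Set.disjoint_left]
    intro z h1 h2
    exact hd (h1.1.symm.trans h2.1)

/-- The fibres are open. -/
theorem isOpen_fib (g : G W) : IsOpen {g' : G W | g'.d = g.d} := fun _ hg' =>
  ⟨hne.some, fun _ hz => hz.1.trans hg'⟩

theorem fib_finite (g : G W) : (SS W ∩ {g' | g'.d = g.d}).Finite := by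
  have key : ∀ x y : W → ℤ, Finsupp.single x (1 : ℤ) = Finsupp.single y 1 → x = y :=
    fun x y hxy => Finsupp.single_left_injective one_ne_zero hxy
  by_cases hex : ∃ x : W → ℤ, g.d = Finsupp.single x 1
  · obtain ⟨x, hx⟩ := hex
    refine ((Set.finite_singleton (⟨Finsupp.single x 1, x⟩ : G W)).insert
      (⟨Finsupp.single x 1, 0⟩ : G W)).subset ?_
    rintro g' ⟨⟨y, rfl⟩ | ⟨y, rfl⟩, h2⟩
    · have h3 : Finsupp.single y (1 : ℤ) = g.d := h2
      have h4 := key y x (h3.trans hx)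
      subst h4
      exact Or.inr rfl
    · have h3 : Finsupp.single y (1 : ℤ) = g.d := h2
      have h4 := key y x (h3.trans hx)
      subst h4
      exact Or.inl rfl
  · refine Set.finite_empty.subset ?_
    rintro g' ⟨⟨y, rfl⟩ | ⟨y, rfl⟩, h2⟩
    · exact (hex ⟨y, (show Finsupp.single y (1 : ℤ) = g.d from h2).symm⟩).elim
    · exact (hex ⟨y, (show Finsupp.single y (1 : ℤ) = g.d from h2).symm⟩).elim

theorem suitable_SS (h : IsOmegaOne W) : IsSuitable (gg W) univ (SS W) ∧ IsClosed (SS W) := by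
  haveI := t2 h
  have hclosed : IsClosed (SS W) := by
    rw [← isOpen_compl_iff, isOpen_iff_mem_nhds]
    intro g hg
    have h1 : {g' : G W | g'.d = g.d} ∈ 𝓝 g := (isOpen_fib g).mem_nhds rfl
    have h2 : (SS W ∩ {g' | g'.d = g.d})ᶜ ∈ 𝓝 g :=
      (fib_finite g).isClosed.isOpen_compl.mem_nhds (fun h' => hg h'.1)
    filter_upwards [h1, h2] with z hz1 hz2 hz
    exact hz2 ⟨hz, hz1⟩
  refine ⟨⟨subset_univ _, ?_, ⟨SS W ∪ {(gg W).one}, hclosed.union isClosed_singleton,
    inter_univ _⟩, ?_⟩, hclosed⟩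
  · rw [discreteTopology_subtype_iff']
    intro g hg
    refine ⟨{g' | g'.d = g.d} ∩ ((SS W ∩ {g' | g'.d = g.d}) \ {g})ᶜ,
      (isOpen_fib g).inter ((fib_finite g).sdiff.isClosed.isOpen_compl), ?_⟩
    ext z
    simp only [mem_inter_iff, mem_ofPred_eq, mem_compl_iff, Set.mem_sdiff, mem_singleton_iff,
      not_and, not_not]
    constructor
    · rintro ⟨⟨h1, h2⟩, h3⟩
      exact h2 ⟨h3, h1⟩
    · rintro rfl
      exact ⟨⟨rfl, fun _ => rfl⟩, hg⟩
  · rw [generated_eq, closure_SS]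
    intro g _
    exact subset_closure trivial

/-! ## The subgyrogroup -/

/-- The embedding of the functions. -/
def inc : (W → ℤ) →+ G W where
  toFun x := ⟨0, x⟩
  map_zero' := rfl
  map_add' _ _ := G.ext (add_zero 0).symm rfl

theorem inc_d (x : W → ℤ) : (inc x).d = 0 := rfl
theorem inc_x (x : W → ℤ) : (inc x).x = x := rfl

theorem inc_of {g : G W} (hg : g.d = 0) : g = inc g.x := G.ext hg rfl

/-- The subgroup. -/
noncomputable def HH (c : W → W → ℤ) : AddSubgroup (G W) := (H c).map inc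

theorem mem_HH {c : W → W → ℤ} {g : G W} : g ∈ HH c ↔ g.d = 0 ∧ g.x ∈ H c := by
  constructor
  · rintro ⟨x, hx, rfl⟩
    exact ⟨rfl, hx⟩
  · rintro ⟨h1, h2⟩
    exact ⟨g.x, h2, (inc_of h1).symm⟩

theorem no_suitable (h : IsOmegaOne W) {c : W → W → ℤ} (hc : IsLadder c) :
    ¬ ∃ S, IsSuitable (gg W) (HH c) S := by
  rintro ⟨S, hSH, hdis, ⟨C, hC, hCS⟩, hdense⟩
  let T : Set (W → ℤ) := inc ⁻¹' S
  have hTS : inc '' T = S := by
    apply Subset.antisymm
    · rintro _ ⟨x, hx, rfl⟩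
      exact hx
    · intro g hg
      have h1 := (mem_HH.mp (hSH hg)).1
      exact ⟨g.x, by show inc g.x ∈ S; rwa [← inc_of h1], (inc_of h1).symm⟩
  have hTH : T ⊆ H c := fun x hx => (mem_HH.mp (hSH hx)).2
  have hcount : ∀ β, {x ∈ T | ∃ γ < β, x γ ≠ 0}.Countable := by
    intro β
    by_contra hunc
    obtain ⟨z, hzH, hz⟩ := exists_acc h hc (A := {x ∈ T | ∃ γ < β, x γ ≠ 0})
      (fun x hx => hTH hx.1) hunc
    have hexists : ∀ α, ∃ x ∈ T, (∃ γ < β, x γ ≠ 0) ∧ ∀ γ < α, x γ = z γ := by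
      intro α
      by_contra hno
      push Not at hno
      apply hz α
      convert Set.countable_empty (α := W → ℤ)
      ext x
      simp only [mem_ofPred_eq, mem_empty_iff_false, iff_false, not_and]
      intro hx hx'
      obtain ⟨γ, hγ, hne'⟩ := hno x hx.1 hx.2
      exact hne' (hx' γ hγ)
    -- `z` lies in `S`
    have hzC : inc z ∈ C := by
      rw [← hC.closure_eq, mem_closure_iff_nhds]
      intro t ht
      obtain ⟨α, hα⟩ := mem_nhds.mp ht
      obtain ⟨x, hx, -, hxz⟩ := hexists α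
      refine ⟨inc x, hα ⟨rfl, hxz⟩, ?_⟩
      have h1 : inc x ∈ C ∩ (HH c : Set (G W)) := by
        rw [hCS]; exact Or.inl hx
      exact h1.1
    have hzmem : inc z ∈ C ∩ (HH c : Set (G W)) := ⟨hzC, mem_HH.mpr ⟨rfl, hzH⟩⟩
    rw [hCS] at hzmem
    obtain ⟨x, hx, ⟨γ, hγ, hne'⟩, hxz⟩ := hexists β
    have hz0 : z γ ≠ 0 := by rw [← hxz γ hγ]; exact hne'
    rcases hzmem with hzS | hz1
    · rw [discreteTopology_subtype_iff'] at hdis
      obtain ⟨V, hV, hVS⟩ := hdis _ hzS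
      have hzV : inc z ∈ V := by
        have : inc z ∈ V ∩ S := by rw [hVS]; rfl
        exact this.1
      obtain ⟨α, hα⟩ := isOpen_iff.mp hV _ hzV
      apply hz α
      refine (Set.countable_singleton z).mono ?_
      rintro y ⟨⟨hyT, -⟩, hyz⟩
      have h1 : inc y ∈ V ∩ S := ⟨hα ⟨rfl, hyz⟩, hyT⟩
      rw [hVS] at h1
      exact congrArg G.x h1
    · have h1 : inc z = 0 := hz1
      exact hz0 (congrFun (congrArg G.x h1) γ)
  obtain ⟨z, δ, hzH, hzδ⟩ := not_dense h hc hTH hcount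
  have h1 : inc z ∈ closure (generated (gg W) S) := hdense (mem_HH.mpr ⟨rfl, hzH⟩)
  rw [generated_eq, mem_closure_iff_nhds] at h1
  obtain ⟨g, hg1, hg2⟩ := h1 _ (mem_nhds.mpr ⟨δ, Subset.rfl⟩)
  have h2 : AddSubgroup.closure S = (AddSubgroup.closure T).map inc := by
    rw [AddMonoidHom.map_closure, hTS]
  rw [SetLike.mem_coe, h2] at hg2
  obtain ⟨x, hx, rfl⟩ := hg2
  obtain ⟨γ, hγ, hne'⟩ := hzδ x hx
  exact hne' (hg1.2 γ hγ)

/-- There are a strongly topologically orderable gyrogroup (a group) with a (closed) suitable set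
and a subgyrogroup without a suitable set. -/
theorem result : ∃ (X : Type) (𝒢 : Gyrogroup X) (_ : TopologicalSpace X),
    IsStronglyTopological 𝒢 ∧ IsTopologicallyOrderable X ∧
      (∃ S, IsSuitable 𝒢 univ S ∧ IsClosed S) ∧
      ∃ K, IsSubgyrogroup 𝒢 K ∧ ¬ ∃ S, IsSuitable 𝒢 K S := by
  obtain ⟨b, -⟩ := isOmegaOne_W1.bdd (Set.countable_empty (α := W1))
  haveI : Nonempty W1 := ⟨b⟩
  obtain ⟨c, hc⟩ := exists_ladder isOmegaOne_W1
  exact ⟨G W1, gg W1, inferInstance, isStrong, orderable isOmegaOne_W1,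
    ⟨SS W1, suitable_SS isOmegaOne_W1⟩, HH c, isSub_iff.mpr ⟨HH c, rfl⟩,
    no_suitable isOmegaOne_W1 hc⟩

end Pool.Agent.Results.MP_1c9ee6_al.NoSuitable
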